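import Pool.Agent.R972.OP.Stm3

/-!
# OP2-CMB: points of a simplex near another simplex
-/

set_option autoImplicit false

namespace Pool.Agent.R819.OP2

open Pool.Agent.R972.OP

/-- two different permutations invert some adjacent pair -/
theorem exists_inv {n : ℕ} (s t : Equiv.Perm (Fin n)) (hst : s ≠ t) :
    ∃ k l : Fin n, l.val = k.val + 1 ∧ t⁻¹ (s l) < t⁻¹ (s k) := by
  by_contra hcon
  push Not at hcon
  apply hst
  rcases n with _ | n
  · exact Subsingleton.elim _ _
  have hmono : StrictMono fun i => t⁻¹ (s i) := by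
    rw [Fin.strictMono_iff_lt_succ]
    intro i
    have h1 := hcon i.castSucc i.succ (by simp)
    refine lt_of_le_of_ne h1 ?_
    intro h2
    have h3 : s i.castSucc = s i.succ := t⁻¹.injective h2
    have h4 := s.injective h3
    have h5 := congrArg Fin.val h4
    simp at h5
  have hid : (fun i => t⁻¹ (s i)) = fun i : Fin (n + 1) => i := by
    have h1 : Function.Surjective fun i => t⁻¹ (s i) := t⁻¹.surjective.comp s.surjective
    refine (StrictMono.range_inj hmono (strictMono_id)).1 ?_
    rw [h1.range_eq]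
    exact Set.range_id.symm
  ext i
  have h2 := congrFun hid i
  have h3 : t⁻¹ (s i) = i := h2
  have h4 : s i = t i := by
    rw [Equiv.Perm.inv_eq_iff_eq] at h3
    exact h3
  rw [h4]

/-- an inverted pair has a small gap -/
theorem gap_small {n : ℕ} (t : Equiv.Perm (Fin n)) (x y : Fin n → ℝ) (e : ℝ)
    (hy : y ∈ Sx t) (hxy : ∀ i, |x i - y i| ≤ e) (a b : Fin n) (hab : t⁻¹ b < t⁻¹ a) :
    x b - x a ≤ 2 * e := by
  have h1 := hy.2 hab.le
  have h2 : y b ≤ y a := by
    have e1 : t (t⁻¹ b) = b := Equiv.apply_symm_apply t b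
    have e2 : t (t⁻¹ a) = a := Equiv.apply_symm_apply t a
    simpa only [e1, e2] using h1
  have h3 := abs_le.1 (hxy a)
  have h4 := abs_le.1 (hxy b)
  linarith [h3.1, h4.2]

/-- points of a simplex near another simplex -/
theorem t_CMB : S_CMB := by
  intro n s t hst x y e hx hy hxy
  obtain ⟨k, l, hkl, hinv⟩ := exists_inv s t hst
  have hg1 := gap_small t x y e hy hxy (s k) (s l) hinv
  by_cases ht : t = s * Equiv.swap k l
  · exact Or.inl ⟨k, l, hkl, ht, hg1⟩
  right
  obtain ⟨p, q, hpq, hinv2⟩ := exists_inv (s * Equiv.swap k l) t (fun h => ht h.symm)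
  have hg2 := gap_small t x y e hy hxy _ _ hinv2
  have hkl' : x (s k) ≤ x (s l) := hx.2 (by
    rw [Fin.le_def]; omega : k ≤ l)
  have hpk : p ≠ k := by
    intro h
    have hql : q = l := by
      apply Fin.ext
      rw [hpq, hkl, h]
    rw [h, hql] at hinv2
    simp only [Equiv.Perm.mul_apply, Equiv.swap_apply_left, Equiv.swap_apply_right] at hinv2
    exact absurd hinv2 (not_lt.2 hinv.le)
  have hql : q ≠ l := by
    intro h
    apply hpk
    apply Fin.ext
    have := congrArg Fin.val h
    omega
  refine ⟨k, l, p, q, hkl, hpq, Ne.symm hpk, hg1, ?_⟩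
  simp only [Equiv.Perm.mul_apply] at hg2
  by_cases hqk : q = k
  · have hpl : p ≠ l := by
      intro h
      have h1 := congrArg Fin.val h
      have h2 := congrArg Fin.val hqk
      omega
    rw [Equiv.swap_apply_of_ne_of_ne hpk hpl, hqk, Equiv.swap_apply_left] at hg2
    rw [hqk]
    linarith
  · rw [Equiv.swap_apply_of_ne_of_ne hqk hql] at hg2
    by_cases hpl : p = l
    · rw [hpl, Equiv.swap_apply_right] at hg2
      rw [hpl]
      linarith
    · rw [Equiv.swap_apply_of_ne_of_ne hpk hpl] at hg2
      exact hg2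

end Pool.Agent.R819.OP2
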